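import Pool.Agent.Helper26.OB.Defs

/-!
# OB, block A2, part 1: reduction of polynomials with integral roots
-/

set_option autoImplicit false

namespace Pool.Agent.Helper11.OB

open Polynomial Pool.Agent.Helper61.TH Pool.Agent.Helper26.OB Pool.Agent.Helper87.FK

noncomputable section

variable {p : ℕ} [Fact p.Prime] (τ : ℂ →+* PadicAlgCl p)

theorem rd_eq {z : ℂ} (h : ‖τ z‖ ≤ 1) : rd τ z = Ideal.Quotient.mk (mm p) ⟨τ z, mem_Oc.2 h⟩ := by
  rw [rd, dif_pos h]

theorem rd_of_mk {z : ℂ} (w : Oc p) (h : (w : PadicAlgCl p) = τ z) : rd τ z = Ideal.Quotient.mk (mm p) w := by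
  have h1 : ‖τ z‖ ≤ 1 := by
    rw [← h]
    exact mem_Oc.1 w.2
  rw [rd_eq τ h1]
  congr 1
  exact Subtype.ext h.symm

theorem rd_zero : rd τ 0 = 0 := by
  rw [rd_of_mk τ 0 (by simp), map_zero]

theorem rd_one : rd τ 1 = 1 := by
  rw [rd_of_mk τ 1 (by simp), map_one]

theorem rd_sub {z w : ℂ} (hz : ‖τ z‖ ≤ 1) (hw : ‖τ w‖ ≤ 1) : rd τ (z - w) = rd τ z - rd τ w := by
  rw [rd_eq τ hz, rd_eq τ hw, ← map_sub]
  exact rd_of_mk τ _ (by simp)

theorem rd_ne_zero {z : ℂ} (hz : ‖τ z‖ = 1) : rd τ z ≠ 0 := by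
  rw [rd_eq τ hz.le]
  intro h
  rw [Ideal.Quotient.eq_zero_iff_mem, mem_mm] at h
  exact absurd h (by simp [hz])

/-- the product of the linear factors -/
theorem lift_prod (S : Multiset ℂ) (hS : ∀ z ∈ S, ‖τ z‖ ≤ 1) : ∃ Q : (Oc p)[X],
    Q.map (algebraMap (Oc p) (PadicAlgCl p)) = ((S.map fun z => X - C z).prod).map τ ∧
      Q.map (Ideal.Quotient.mk (mm p)) = (S.map fun z => X - C (rd τ z)).prod := by
  induction S using Multiset.induction_on with
  | empty => exact ⟨1, by simp, by simp⟩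
  | cons z S ih =>
    obtain ⟨Q, h1, h2⟩ := ih (fun w hw => hS w (Multiset.mem_cons_of_mem hw))
    have hz := hS z (Multiset.mem_cons_self z S)
    refine ⟨(X - C ⟨τ z, mem_Oc.2 hz⟩) * Q, ?_, ?_⟩
    · rw [Polynomial.map_mul, h1, Multiset.map_cons, Multiset.prod_cons, Polynomial.map_mul, Polynomial.map_sub, Polynomial.map_sub,
        map_X, map_X, map_C, map_C]
      rfl
    · rw [Polynomial.map_mul, h2, Multiset.map_cons, Multiset.prod_cons, Polynomial.map_sub, map_X, map_C, rd_eq τ hz]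

/-- the reduction of the coefficients -/
theorem rd_coeff {P : ℂ[X]} (hlc : ‖τ P.leadingCoeff‖ ≤ 1) (hr : ∀ z ∈ P.roots, ‖τ z‖ ≤ 1) (j : ℕ) :
    rd τ (P.coeff j) = (C (rd τ P.leadingCoeff) * (P.roots.map fun z => X - C (rd τ z)).prod).coeff j := by
  obtain ⟨Q, h1, h2⟩ := lift_prod τ P.roots hr
  have hP : P = C P.leadingCoeff * (P.roots.map fun z => X - C z).prod :=
    (IsAlgClosed.splits P).eq_prod_roots
  have h3 : (C (⟨τ P.leadingCoeff, mem_Oc.2 hlc⟩ : Oc p) * Q).map (algebraMap (Oc p) (PadicAlgCl p)) = P.map τ := by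
    conv_rhs => rw [hP]
    rw [Polynomial.map_mul, Polynomial.map_mul, h1, map_C, map_C]
    rfl
  have h4 : (C (⟨τ P.leadingCoeff, mem_Oc.2 hlc⟩ : Oc p) * Q).map (Ideal.Quotient.mk (mm p)) =
      C (rd τ P.leadingCoeff) * (P.roots.map fun z => X - C (rd τ z)).prod := by
    rw [Polynomial.map_mul, h2, map_C, rd_eq τ hlc]
  rw [← h4, coeff_map]
  apply rd_of_mk
  have h5 := congrArg (fun R => Polynomial.coeff R j) h3
  simp only [coeff_map] at h5
  exact h5

theorem norm_coeff {P : ℂ[X]} (hlc : ‖τ P.leadingCoeff‖ ≤ 1) (hr : ∀ z ∈ P.roots, ‖τ z‖ ≤ 1) (j : ℕ) : ‖τ (P.coeff j)‖ ≤ 1 := by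
  obtain ⟨Q, h1, -⟩ := lift_prod τ P.roots hr
  have hP : P = C P.leadingCoeff * (P.roots.map fun z => X - C z).prod :=
    (IsAlgClosed.splits P).eq_prod_roots
  have h3 : (C (⟨τ P.leadingCoeff, mem_Oc.2 hlc⟩ : Oc p) * Q).map (algebraMap (Oc p) (PadicAlgCl p)) = P.map τ := by
    conv_rhs => rw [hP]
    rw [Polynomial.map_mul, Polynomial.map_mul, h1, map_C, map_C]
    rfl
  have h5 := congrArg (fun R => Polynomial.coeff R j) h3
  simp only [coeff_map] at h5
  rw [← h5]
  exact mem_Oc.1 (Subtype.property _)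

/-- the zeros in the projective line of the reduction of a binary form -/
theorem zero_form {P : ℂ[X]} {D : ℕ} (hD : P.natDegree ≤ D) (hlc : ‖τ P.leadingCoeff‖ = 1)
    (hr : ∀ z ∈ P.roots, ‖τ z‖ ≤ 1) (x : Fin 2 → kk p) (hx : x ≠ 0)
    (h : ∑ j ∈ Finset.range (D + 1), rd τ (P.coeff j) * x 0 ^ j * x 1 ^ (D - j) = 0) :
    (∃ z ∈ P.roots, pr x = some (rd τ z)) ∨ (P.coeff D = 0 ∧ pr x = none) := by
  have hl0 : rd τ P.leadingCoeff ≠ 0 := rd_ne_zero τ hlc
  by_cases h1 : x 1 = 0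
  · right
    have h0 : x 0 ≠ 0 := by
      intro h0
      apply hx
      funext i
      fin_cases i
      · exact h0
      · exact h1
    have h2 : rd τ (P.coeff D) * x 0 ^ D = 0 := by
      rw [Finset.sum_range_succ, Finset.sum_eq_zero, zero_add, Nat.sub_self, pow_zero, mul_one] at h
      · exact h
      · intro j hj
        rw [Finset.mem_range] at hj
        rw [h1, zero_pow (by omega), mul_zero]
    have h3 : rd τ (P.coeff D) = 0 := (mul_eq_zero.mp h2).resolve_right (pow_ne_zero _ h0)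
    refine ⟨?_, by rw [pr, if_pos h1]⟩
    rcases lt_or_eq_of_le hD with h4 | h4
    · exact coeff_eq_zero_of_natDegree_lt h4
    · exfalso
      apply hl0
      rw [← h3, ← h4]
      rfl
  · left
    set Q : (kk p)[X] := C (rd τ P.leadingCoeff) * (P.roots.map fun z => X - C (rd τ z)).prod with hQ
    have h2 : ∀ j, rd τ (P.coeff j) = Q.coeff j := fun j => rd_coeff τ hlc.le hr j
    have hQD : Q.natDegree < D + 1 := by
      have h3 : Q.natDegree ≤ D := by
        rw [natDegree_le_iff_coeff_eq_zero]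
        intro n hn
        rw [← h2, coeff_eq_zero_of_natDegree_lt (by omega), rd_zero]
      omega
    have h3 : eval (x 0 / x 1) Q = 0 := by
      rw [eval_eq_sum_range' hQD]
      have h4 : ∑ j ∈ Finset.range (D + 1), rd τ (P.coeff j) * x 0 ^ j * x 1 ^ (D - j) =
          x 1 ^ D * ∑ j ∈ Finset.range (D + 1), Q.coeff j * (x 0 / x 1) ^ j := by
        rw [Finset.mul_sum]
        refine Finset.sum_congr rfl fun j hj => ?_
        rw [Finset.mem_range] at hj
        have e : x 1 ^ D = x 1 ^ j * x 1 ^ (D - j) := by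
          rw [← pow_add]
          congr 1
          omega
        rw [h2, e, div_pow]
        field_simp
      rw [h4] at h
      exact (mul_eq_zero.mp h).resolve_left (pow_ne_zero _ h1)
    rw [hQ, eval_mul, eval_C, eval_multiset_prod, Multiset.map_map] at h3
    have h4 := (mul_eq_zero.mp h3).resolve_left hl0
    rw [Multiset.prod_eq_zero_iff, Multiset.mem_map] at h4
    obtain ⟨z, hz, hz0⟩ := h4
    refine ⟨z, hz, ?_⟩
    rw [pr, if_neg h1]
    simp only [Function.comp_apply, eval_sub, eval_X, eval_C] at hz0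
    rw [sub_eq_zero.mp hz0]

end

end Pool.Agent.Helper11.OB
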