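import Pool.Agent.Helper11.OB.Wr

/-!
# OB, block A2: good reduction and lifting of critical points
-/

set_option autoImplicit false

namespace Pool.Agent.Helper11.OB

open Polynomial Pool.Agent.Helper61.TH Pool.Agent.Helper26.OB Pool.Agent.Helper87.FK

noncomputable section

/-- the roots of a polynomial with algebraic coefficients are algebraic -/
theorem alg_root {P : ℂ[X]} (hP : ∀ n, IsAlgebraic ℚ (P.coeff n)) {z : ℂ} (hz : z ∈ P.roots) : IsAlgebraic ℚ z := by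
  have h1 : P ∈ Polynomial.lifts (algebraMap (algebraicClosure ℚ ℂ) ℂ) := by
    rw [Polynomial.lifts_iff_coeff_lifts]
    intro n
    exact ⟨⟨P.coeff n, mem_algebraicClosure_iff.mpr (hP n)⟩, rfl⟩
  obtain ⟨Q, hQ⟩ := (Polynomial.mem_lifts _).mp h1
  have hP0 : P ≠ 0 := (mem_roots'.mp hz).1
  have hQ0 : Q ≠ 0 := by
    rintro rfl
    apply hP0
    rw [← hQ, Polynomial.map_zero]
  have h2 : IsAlgebraic (algebraicClosure ℚ ℂ) z := by
    refine ⟨Q, hQ0, ?_⟩
    rw [aeval_def, ← eval_map, hQ]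
    exact (mem_roots'.mp hz).2
  have : Algebra.IsAlgebraic ℚ (algebraicClosure ℚ ℂ) := algebraicClosure.isAlgebraic ℚ ℂ
  exact h2.restrictScalars ℚ

theorem alg_pl {s : ℕ} {d : Fin s → ℕ} {c : Idx d → ℂ} (hc : ∀ q, IsAlgebraic ℚ (c q)) (a : Fin s) (i : Fin 2) (n : ℕ) :
    IsAlgebraic ℚ ((pl c a i).coeff n) := by
  rw [coeff_pl]
  split_ifs with h
  · exact hc _
  · exact isAlgebraic_zero

theorem alg_sum {ι : Type*} (S : Finset ι) (f : ι → ℂ) (h : ∀ i ∈ S, IsAlgebraic ℚ (f i)) : IsAlgebraic ℚ (∑ i ∈ S, f i) := by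
  have h1 : ∑ i ∈ S, f i ∈ algebraicClosure ℚ ℂ := sum_mem fun i hi => mem_algebraicClosure_iff.mpr (h i hi)
  exact mem_algebraicClosure_iff.mp h1

theorem alg_wr {s : ℕ} {d : Fin s → ℕ} {c : Idx d → ℂ} (hc : ∀ q, IsAlgebraic ℚ (c q)) (a : Fin s) (n : ℕ) :
    IsAlgebraic ℚ ((wr c a).coeff n) := by
  rw [wr_sum, finsetSum_coeff]
  refine alg_sum _ _ fun i _ => ?_
  rw [finsetSum_coeff]
  refine alg_sum _ _ fun j _ => ?_
  rw [coeff_C_mul_X_pow]
  split_ifs
  · have h1 : ∀ n : ℕ, IsAlgebraic ℚ (n : ℂ) := fun n => isAlgebraic_natCast n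
    exact (((h1 _).sub (h1 _)).mul (hc _)).mul (hc _)
  · exact isAlgebraic_zero

/-- reduction of the coefficients of the Wronskian -/
theorem rd_wr {p : ℕ} [Fact p.Prime] (τ : ℂ →+* PadicAlgCl p) {s : ℕ} {d : Fin s → ℕ} {c : Idx d → ℂ} (hc : ∀ q, ‖τ (c q)‖ ≤ 1)
    (a : Fin s) (m : ℕ) : (wr (fun q => rd τ (c q)) a).coeff m = rd τ ((wr c a).coeff m) := by
  set c' : Idx d → Oc p := fun q => ⟨τ (c q), mem_Oc.2 (hc q)⟩ with hc'
  have h1 : (fun q => rd τ (c q)) = fun q => Ideal.Quotient.mk (mm p) (c' q) := by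
    funext q
    exact rd_eq τ (hc q)
  have h2 : (wr c' a).map (algebraMap (Oc p) (PadicAlgCl p)) = (wr c a).map τ := by
    rw [map_wr, map_wr]
    rfl
  rw [h1, ← map_wr, coeff_map]
  symm
  apply rd_of_mk
  have h5 := congrArg (fun R => Polynomial.coeff R m) h2
  simp only [coeff_map] at h5
  exact h5

/-- reduction of the coefficients of numerator and denominator -/
theorem rd_pl {p : ℕ} [Fact p.Prime] (τ : ℂ →+* PadicAlgCl p) {s : ℕ} {d : Fin s → ℕ} (c : Idx d → ℂ)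
    (a : Fin s) (i : Fin 2) (m : ℕ) : (pl (fun q => rd τ (c q)) a i).coeff m = rd τ ((pl c a i).coeff m) := by
  rw [coeff_pl, coeff_pl]
  split_ifs
  · rfl
  · exact (rd_zero τ).symm

/-- the numbers attached to a polynomial -/
def ZP (P : ℂ[X]) : Finset ℂ := {P.leadingCoeff} ∪ P.roots.toFinset

theorem lc_mem_ZP (P : ℂ[X]) : P.leadingCoeff ∈ ZP P := Finset.mem_union_left _ (Finset.mem_singleton_self _)

theorem root_mem_ZP {P : ℂ[X]} {z : ℂ} (hz : z ∈ P.roots) : z ∈ ZP P :=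
  Finset.mem_union_right _ (Multiset.mem_toFinset.mpr hz)

theorem alg_ZP {P : ℂ[X]} (hP : ∀ n, IsAlgebraic ℚ (P.coeff n)) : ∀ z ∈ ZP P, IsAlgebraic ℚ z := by
  intro z hz
  rcases Finset.mem_union.mp hz with h | h
  · rw [Finset.mem_singleton.mp h]
    exact hP _
  · exact alg_root hP (Multiset.mem_toFinset.mp h)

/-- **A2**: good reduction and lifting of critical points -/
theorem red {s : ℕ} {d : Fin s → ℕ} (hd1 : ∀ a, 1 ≤ d a) (c : Idx d → ℂ) (hc : ∀ q, IsAlgebraic ℚ (c q))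
    (hdeg : HasDeg c) : ∃ Z : Finset ℂ, (∀ z ∈ Z, IsAlgebraic ℚ z) ∧ (∀ q, c q ∈ Z) ∧
      ∀ (p : ℕ) [Fact p.Prime] (τ : ℂ →+* PadicAlgCl p), Un τ Z →
        (∀ a (x : Fin 2 → kk p), x ≠ 0 → ev (form (fun q => rd τ (c q)) a) x ≠ 0) ∧
        ∀ a (x : Fin 2 → kk p), x ≠ 0 → wrh (fun q => rd τ (c q)) a x = 0 →
          ∃ y : Fin 2 → ℂ, (∀ i, y i ∈ Z) ∧ (y 1 = 1 ∨ (y 0 = 1 ∧ y 1 = 0)) ∧ wrh c a y = 0 ∧
            pr x = pr fun i => rd τ (y i) := by
  classical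
  set Z₁ : Finset ℂ := Finset.univ.biUnion fun a : Fin s => ZP (wr c a) ∪ ZP (pl c a 0) ∪ ZP (pl c a 1) with hZ₁
  set Z : Finset ℂ := {0, 1} ∪ Finset.univ.image c ∪ Z₁ ∪ (Z₁ ×ˢ Z₁).image (fun t => t.1 - t.2) with hZ
  have hZ₁Z : ∀ z ∈ Z₁, z ∈ Z := fun z hz => Finset.mem_union_left _ (Finset.mem_union_right _ hz)
  have h0Z : (0 : ℂ) ∈ Z := Finset.mem_union_left _ (Finset.mem_union_left _ (Finset.mem_union_left _ (by simp)))
  have h1Z : (1 : ℂ) ∈ Z := Finset.mem_union_left _ (Finset.mem_union_left _ (Finset.mem_union_left _ (by simp)))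
  have hcZ : ∀ q, c q ∈ Z := fun q => Finset.mem_union_left _ (Finset.mem_union_left _ (Finset.mem_union_right _
    (Finset.mem_image_of_mem c (Finset.mem_univ q))))
  have hw1 : ∀ a, ∀ z ∈ ZP (wr c a), z ∈ Z₁ := fun a z hz =>
    Finset.mem_biUnion.mpr ⟨a, Finset.mem_univ a, Finset.mem_union_left _ (Finset.mem_union_left _ hz)⟩
  have hf1 : ∀ a, ∀ z ∈ ZP (pl c a 0), z ∈ Z₁ := fun a z hz =>
    Finset.mem_biUnion.mpr ⟨a, Finset.mem_univ a, Finset.mem_union_left _ (Finset.mem_union_right _ hz)⟩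
  have hg1 : ∀ a, ∀ z ∈ ZP (pl c a 1), z ∈ Z₁ := fun a z hz =>
    Finset.mem_biUnion.mpr ⟨a, Finset.mem_univ a, Finset.mem_union_right _ hz⟩
  have halg1 : ∀ z ∈ Z₁, IsAlgebraic ℚ z := by
    intro z hz
    obtain ⟨a, -, ha⟩ := Finset.mem_biUnion.mp hz
    rcases Finset.mem_union.mp ha with h | h
    · rcases Finset.mem_union.mp h with h | h
      · exact alg_ZP (alg_wr hc a) z h
      · exact alg_ZP (alg_pl hc a 0) z h
    · exact alg_ZP (alg_pl hc a 1) z h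
  refine ⟨Z, ?_, hcZ, ?_⟩
  · intro z hz
    rcases Finset.mem_union.mp hz with h | h
    · rcases Finset.mem_union.mp h with h | h
      · rcases Finset.mem_union.mp h with h | h
        · rw [Finset.mem_insert, Finset.mem_singleton] at h
          rcases h with rfl | rfl
          · exact isAlgebraic_zero
          · exact isAlgebraic_one
        · obtain ⟨q, -, rfl⟩ := Finset.mem_image.mp h
          exact hc q
      · exact halg1 z h
    · obtain ⟨t, ht, rfl⟩ := Finset.mem_image.mp h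
      rw [Finset.mem_product] at ht
      exact (halg1 _ ht.1).sub (halg1 _ ht.2)
  intro p _ τ hU
  have hci : ∀ q, ‖τ (c q)‖ ≤ 1 := fun q => (hU _ (hcZ q)).1
  have hlc : ∀ P : ℂ[X], P ≠ 0 → (∀ z ∈ ZP P, z ∈ Z₁) → ‖τ P.leadingCoeff‖ = 1 := fun P hP h =>
    (hU _ (hZ₁Z _ (h _ (lc_mem_ZP P)))).2 (leadingCoeff_ne_zero.mpr hP)
  have hrt : ∀ P : ℂ[X], (∀ z ∈ ZP P, z ∈ Z₁) → ∀ z ∈ P.roots, ‖τ z‖ ≤ 1 := fun P h z hz =>
    (hU _ (hZ₁Z _ (h _ (root_mem_ZP hz)))).1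
  refine ⟨fun a x hx h => ?_, fun a x hx h => ?_⟩
  · have hF := congrFun h 0
    have hG := congrFun h 1
    simp only [ev, Pi.zero_apply] at hF hG
    rw [form_eq] at hF hG
    simp only [rd_pl] at hF hG
    have r1 := zero_form τ (natDegree_pl c a 0) (hlc _ (pl0_ne hdeg a (hd1 a)) (hf1 a)) (hrt _ (hf1 a)) x hx hF
    have r2 := zero_form τ (natDegree_pl c a 1) (hlc _ (pl1_ne hdeg a (hd1 a)) (hg1 a)) (hrt _ (hg1 a)) x hx hG
    rcases r1 with ⟨z, hz, hz'⟩ | ⟨h1, h1'⟩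
    · rcases r2 with ⟨v, hv, hv'⟩ | ⟨h2, h2'⟩
      · rw [hz', Option.some_inj] at hv'
        have hzi : ‖τ z‖ ≤ 1 := hrt _ (hf1 a) z hz
        have hvi : ‖τ v‖ ≤ 1 := hrt _ (hg1 a) v hv
        have hmem : z - v ∈ Z := Finset.mem_union_right _ (Finset.mem_image.mpr
          ⟨(z, v), Finset.mem_product.mpr ⟨hf1 a z (root_mem_ZP hz), hg1 a v (root_mem_ZP hv)⟩, rfl⟩)
        have hne : z - v ≠ 0 := by
          intro h0
          rw [sub_eq_zero] at h0
          subst h0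
          exact no_common hdeg a z ⟨(mem_roots'.mp hz).2, (mem_roots'.mp hv).2⟩
        have h3 := rd_ne_zero τ ((hU _ hmem).2 hne)
        apply h3
        rw [rd_sub τ hzi hvi, hv', sub_self]
      · rw [hz'] at h2'
        exact absurd h2' (by simp)
    · rcases r2 with ⟨v, hv, hv'⟩ | ⟨h2, h2'⟩
      · rw [h1'] at hv'
        exact absurd hv' (by simp)
      · exact no_inf hdeg a ⟨h1, h2⟩
  · rw [wrh_eq _ a (hd1 a)] at h
    simp only [rd_wr τ hci] at h
    have r1 := zero_form τ (natDegree_wr c a (hd1 a)) (hlc _ (wr_ne hdeg a (hd1 a)) (hw1 a)) (hrt _ (hw1 a)) x hx h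
    rcases r1 with ⟨z, hz, hz'⟩ | ⟨h1, h1'⟩
    · refine ⟨fun i => if i = 0 then z else 1, fun i => ?_, Or.inl (by simp), ?_, ?_⟩
      · fin_cases i
        · exact hZ₁Z _ (hw1 a z (root_mem_ZP hz))
        · exact h1Z
      · rw [wrh_eq _ a (hd1 a)]
        have h2 : eval z (wr c a) = 0 := (mem_roots'.mp hz).2
        rw [eval_eq_sum_range' (n := 2 * d a - 2 + 1) (Nat.lt_succ_of_le (natDegree_wr c a (hd1 a)))] at h2
        simpa using h2
      · rw [hz']
        simp [pr, rd_one]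
    · refine ⟨fun i => if i = 0 then 1 else 0, fun i => ?_, Or.inr (by simp), ?_, ?_⟩
      · fin_cases i
        · exact h1Z
        · exact h0Z
      · rw [wrh_eq _ a (hd1 a)]
        refine Finset.sum_eq_zero fun m hm => ?_
        rw [Finset.mem_range] at hm
        by_cases hm' : m = 2 * d a - 2
        · rw [hm', h1, zero_mul, zero_mul]
        · simp only [one_ne_zero, if_false]
          rw [zero_pow (by omega), mul_zero]
      · rw [h1']
        simp [pr, rd_zero]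

end

end Pool.Agent.Helper11.OB
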