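import Pool.Agent.Helper26.OB.Defs

/-!
# OB, block A1: the Jacobian determinant
-/

set_option autoImplicit false

namespace Pool.Agent.Helper11.OB

open MvPolynomial Pool.Agent.Helper61.TH Pool.Agent.Helper26.OB

private theorem d0 {R : Type*} [CommRing R] {s : ℕ} {d : Fin s → ℕ} (c : Idx d → R) (a : Fin s) (i : Fin 2) (x : Fin 2 → R) :
    eval x (pderiv 0 (form c a i)) = ∑ j : Fin (d a + 1), c ⟨a, (i, j)⟩ * ((j : ℕ) : R) * x 0 ^ ((j : ℕ) - 1) * x 1 ^ (d a - j) := by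
  rw [form, map_sum, map_sum]
  refine Finset.sum_congr rfl fun j _ => ?_
  rw [Derivation.leibniz, Derivation.leibniz, Derivation.leibniz_pow, Derivation.leibniz_pow, pderiv_C, pderiv_X_self,
    pderiv_X_of_ne (by decide)]
  simp only [smul_eq_mul, nsmul_eq_mul, map_mul, map_pow, eval_C, eval_X, map_natCast, mul_one, mul_zero, add_zero, zero_add]
  ring

private theorem d1 {R : Type*} [CommRing R] {s : ℕ} {d : Fin s → ℕ} (c : Idx d → R) (a : Fin s) (i : Fin 2) (x : Fin 2 → R) :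
    eval x (pderiv 1 (form c a i)) =
      ∑ j : Fin (d a + 1), c ⟨a, (i, j)⟩ * ((d a - (j : ℕ) : ℕ) : R) * x 0 ^ (j : ℕ) * x 1 ^ (d a - j - 1) := by
  rw [form, map_sum, map_sum]
  refine Finset.sum_congr rfl fun j _ => ?_
  rw [Derivation.leibniz, Derivation.leibniz, Derivation.leibniz_pow, Derivation.leibniz_pow, pderiv_C, pderiv_X_self,
    pderiv_X_of_ne (by decide)]
  simp only [smul_eq_mul, nsmul_eq_mul, map_mul, map_pow, eval_C, eval_X, map_natCast, mul_one, mul_zero, add_zero]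
  ring

/-- **A1**: the Jacobian determinant -/
theorem jac_det {R : Type*} [CommRing R] {s : ℕ} {d : Fin s → ℕ} (c : Idx d → R) (a : Fin s) (x : Fin 2 → R) :
    (jac (form c a) x).det = (d a : R) * wrh c a x := by
  rw [Matrix.det_fin_two]
  simp only [jac, Matrix.of_apply]
  rw [d0, d0, d1, d1, Finset.sum_mul_sum, Finset.sum_mul_sum, ← Finset.sum_sub_distrib, wrh, Finset.mul_sum]
  refine Finset.sum_congr rfl fun i _ => ?_
  rw [← Finset.sum_sub_distrib, Finset.mul_sum]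
  refine Finset.sum_congr rfl fun j _ => ?_
  obtain ⟨i, hi⟩ := i
  obtain ⟨j, hj⟩ := j
  simp only
  have e1 : ((i : ℕ) : R) * (x 0 ^ (i - 1) * x 0 ^ j) = (i : R) * x 0 ^ (i + j - 1) := by
    rcases Nat.eq_zero_or_pos i with h | h
    · subst h
      simp
    · rw [← pow_add]
      congr 2
      omega
  have e2 : ((j : ℕ) : R) * (x 0 ^ i * x 0 ^ (j - 1)) = (j : R) * x 0 ^ (i + j - 1) := by
    rcases Nat.eq_zero_or_pos j with h | h
    · subst h
      simp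
    · rw [← pow_add]
      congr 2
      omega
  have e3 : ((d a - j : ℕ) : R) * (x 1 ^ (d a - i) * x 1 ^ (d a - j - 1)) = ((d a - j : ℕ) : R) * x 1 ^ (2 * d a - 1 - i - j) := by
    rcases Nat.eq_zero_or_pos (d a - j) with h | h
    · rw [h]
      simp
    · rw [← pow_add]
      congr 2
      omega
  have e4 : ((d a - i : ℕ) : R) * (x 1 ^ (d a - i - 1) * x 1 ^ (d a - j)) = ((d a - i : ℕ) : R) * x 1 ^ (2 * d a - 1 - i - j) := by
    rcases Nat.eq_zero_or_pos (d a - i) with h | h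
    · rw [h]
      simp
    · rw [← pow_add]
      congr 2
      omega
  have e5 : ((d a - j : ℕ) : R) = (d a : R) - j := by
    rw [Nat.cast_sub (by omega)]
  have e6 : ((d a - i : ℕ) : R) = (d a : R) - i := by
    rw [Nat.cast_sub (by omega)]
  calc c ⟨a, (0, ⟨i, hi⟩)⟩ * (i : R) * x 0 ^ (i - 1) * x 1 ^ (d a - i) *
        (c ⟨a, (1, ⟨j, hj⟩)⟩ * ((d a - j : ℕ) : R) * x 0 ^ j * x 1 ^ (d a - j - 1)) -
        c ⟨a, (0, ⟨i, hi⟩)⟩ * ((d a - i : ℕ) : R) * x 0 ^ i * x 1 ^ (d a - i - 1) *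
        (c ⟨a, (1, ⟨j, hj⟩)⟩ * (j : R) * x 0 ^ (j - 1) * x 1 ^ (d a - j))
      = c ⟨a, (0, ⟨i, hi⟩)⟩ * c ⟨a, (1, ⟨j, hj⟩)⟩ *
        (((i : R) * (x 0 ^ (i - 1) * x 0 ^ j)) * (((d a - j : ℕ) : R) * (x 1 ^ (d a - i) * x 1 ^ (d a - j - 1))) -
        ((j : R) * (x 0 ^ i * x 0 ^ (j - 1))) * (((d a - i : ℕ) : R) * (x 1 ^ (d a - i - 1) * x 1 ^ (d a - j)))) := by ring
    _ = _ := by
      rw [e1, e2, e3, e4, e5, e6]
      ring

end Pool.Agent.Helper11.OB
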