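import Pool.Agent.Helper11.OB.BF

/-!
# OB, block A2, part 2: the Wronskian as a polynomial
-/

set_option autoImplicit false

namespace Pool.Agent.Helper11.OB

open Polynomial Pool.Agent.Helper61.TH Pool.Agent.Helper26.OB Pool.Agent.Helper87.FK

noncomputable section

section
variable {R : Type*} [CommRing R] {s : ℕ} {d : Fin s → ℕ}

/-- the Wronskian as a double sum -/
theorem wr_sum (c : Idx d → R) (a : Fin s) :
    wr c a = ∑ i : Fin (d a + 1), ∑ j : Fin (d a + 1),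
      C (((i : ℕ) - (j : ℕ) : R) * c ⟨a, (0, i)⟩ * c ⟨a, (1, j)⟩) * X ^ ((i : ℕ) + j - 1) := by
  have hd : ∀ i : Fin 2, derivative (pl c a i) = ∑ j : Fin (d a + 1), C (c ⟨a, (i, j)⟩ * (j : ℕ)) * X ^ ((j : ℕ) - 1) := by
    intro i
    rw [pl, derivative_sum]
    refine Finset.sum_congr rfl fun j _ => ?_
    rw [derivative_C_mul_X_pow]
  rw [wr, hd, hd, pl, pl, Finset.sum_mul_sum, Finset.sum_mul_sum, ← Finset.sum_sub_distrib]
  refine Finset.sum_congr rfl fun i _ => ?_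
  rw [← Finset.sum_sub_distrib]
  refine Finset.sum_congr rfl fun j _ => ?_
  obtain ⟨i, hi⟩ := i
  obtain ⟨j, hj⟩ := j
  simp only
  have e1 : C ((i : ℕ) : R) * ((X : R[X]) ^ (i - 1) * X ^ j) = C (i : R) * X ^ (i + j - 1) := by
    rcases Nat.eq_zero_or_pos i with h | h
    · subst h
      simp
    · rw [← pow_add]
      congr 2
      omega
  have e2 : C ((j : ℕ) : R) * ((X : R[X]) ^ i * X ^ (j - 1)) = C (j : R) * X ^ (i + j - 1) := by
    rcases Nat.eq_zero_or_pos j with h | h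
    · subst h
      simp
    · rw [← pow_add]
      congr 2
      omega
  calc C (c ⟨a, (0, ⟨i, hi⟩)⟩ * (i : R)) * X ^ (i - 1) * (C (c ⟨a, (1, ⟨j, hj⟩)⟩) * X ^ j) -
        C (c ⟨a, (0, ⟨i, hi⟩)⟩) * X ^ i * (C (c ⟨a, (1, ⟨j, hj⟩)⟩ * (j : R)) * X ^ (j - 1))
      = C (c ⟨a, (0, ⟨i, hi⟩)⟩) * C (c ⟨a, (1, ⟨j, hj⟩)⟩) *
        (C (i : R) * (X ^ (i - 1) * X ^ j) - C (j : R) * (X ^ i * X ^ (j - 1))) := by
        rw [C_mul, C_mul]
        ring
    _ = _ := by
      rw [e1, e2, C_mul, C_mul, C_sub]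
      ring

/-- the homogenised Wronskian in terms of the coefficients of the Wronskian -/
theorem wrh_eq (c : Idx d → R) (a : Fin s) (hd : 1 ≤ d a) (x : Fin 2 → R) :
    wrh c a x = ∑ m ∈ Finset.range (2 * d a - 2 + 1), (wr c a).coeff m * x 0 ^ m * x 1 ^ (2 * d a - 2 - m) := by
  have h1 : ∀ m, (wr c a).coeff m = ∑ i : Fin (d a + 1), ∑ j : Fin (d a + 1),
      if m = (i : ℕ) + j - 1 then ((i : ℕ) - (j : ℕ) : R) * c ⟨a, (0, i)⟩ * c ⟨a, (1, j)⟩ else 0 := by
    intro m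
    rw [wr_sum, finsetSum_coeff]
    refine Finset.sum_congr rfl fun i _ => ?_
    rw [finsetSum_coeff]
    refine Finset.sum_congr rfl fun j _ => ?_
    rw [coeff_C_mul_X_pow]
  rw [wrh]
  simp only [h1, Finset.sum_mul]
  have e : ∀ f : ℕ → Fin (d a + 1) → Fin (d a + 1) → R,
      ∑ m ∈ Finset.range (2 * d a - 2 + 1), ∑ i, ∑ j, f m i j = ∑ i, ∑ j, ∑ m ∈ Finset.range (2 * d a - 2 + 1), f m i j := by
    intro f
    rw [Finset.sum_comm]
    refine Finset.sum_congr rfl fun i _ => ?_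
    rw [Finset.sum_comm]
  rw [e]
  refine Finset.sum_congr rfl fun i _ => ?_
  refine Finset.sum_congr rfl fun j _ => ?_
  obtain ⟨i, hi⟩ := i
  obtain ⟨j, hj⟩ := j
  simp only
  by_cases hij : i = j
  · subst hij
    rw [sub_self]
    simp
  · rw [Finset.sum_eq_single (i + j - 1)]
    · rw [if_pos rfl]
      congr 2
      omega
    · intro m _ hm
      rw [if_neg hm, zero_mul, zero_mul]
    · intro hm
      exact absurd (Finset.mem_range.mpr (by omega)) hm

theorem coeff_pl (c : Idx d → R) (a : Fin s) (i : Fin 2) (n : ℕ) :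
    (pl c a i).coeff n = if h : n < d a + 1 then c ⟨a, (i, ⟨n, h⟩)⟩ else 0 := by
  rw [pl, finsetSum_coeff]
  simp_rw [coeff_C_mul_X_pow]
  split_ifs with h
  · rw [Finset.sum_eq_single ⟨n, h⟩]
    · simp
    · intro j _ hj
      rw [if_neg]
      intro hn
      exact hj (Fin.ext hn.symm)
    · intro hn
      exact absurd (Finset.mem_univ _) hn
  · refine Finset.sum_eq_zero fun j _ => ?_
    rw [if_neg]
    intro hn
    exact h (hn ▸ j.2)

theorem natDegree_pl (c : Idx d → R) (a : Fin s) (i : Fin 2) : (pl c a i).natDegree ≤ d a := by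
  rw [natDegree_le_iff_coeff_eq_zero]
  intro n hn
  rw [coeff_pl, dif_neg (by omega)]

theorem natDegree_wr (c : Idx d → R) (a : Fin s) (hd : 1 ≤ d a) : (wr c a).natDegree ≤ 2 * d a - 2 := by
  rw [wr_sum]
  refine natDegree_sum_le_of_forall_le _ _ fun i _ => natDegree_sum_le_of_forall_le _ _ fun j _ => ?_
  obtain ⟨i, hi⟩ := i
  obtain ⟨j, hj⟩ := j
  simp only
  by_cases hij : i = j
  · subst hij
    simp
  · exact (natDegree_C_mul_X_pow_le _ _).trans (by omega)

/-- the value of a form -/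
theorem form_eq (c : Idx d → R) (a : Fin s) (i : Fin 2) (x : Fin 2 → R) :
    MvPolynomial.eval x (form c a i) = ∑ j ∈ Finset.range (d a + 1), (pl c a i).coeff j * x 0 ^ j * x 1 ^ (d a - j) := by
  rw [eval_form, Finset.sum_range]
  refine Finset.sum_congr rfl fun j _ => ?_
  rw [coeff_pl, dif_pos j.2]

end

section
variable {s : ℕ} {d : Fin s → ℕ} {c : Idx d → ℂ}

theorem no_common (hdeg : HasDeg c) (a : Fin s) (z : ℂ) : ¬ (eval z (pl c a 0) = 0 ∧ eval z (pl c a 1) = 0) := by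
  rintro ⟨h0, h1⟩
  have h := hdeg a (fun i => if i = 0 then z else 1) (by
    funext i
    have e : ∑ j : Fin (d a + 1), c ⟨a, (i, j)⟩ * z ^ (j : ℕ) * 1 ^ (d a - j) = eval z (pl c a i) := by
      rw [pl, eval_finsetSum]
      refine Finset.sum_congr rfl fun j _ => ?_
      simp
    have e' : ∑ j : Fin (d a + 1), c ⟨a, (i, j)⟩ * (if (0 : Fin 2) = 0 then z else 1) ^ (j : ℕ) *
        (if (1 : Fin 2) = 0 then z else 1) ^ (d a - j) = eval z (pl c a i) := by
      rw [if_pos rfl, if_neg (by decide)]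
      exact e
    show ∑ j : Fin (d a + 1), c ⟨a, (i, j)⟩ * (if (0 : Fin 2) = 0 then z else 1) ^ (j : ℕ) *
        (if (1 : Fin 2) = 0 then z else 1) ^ (d a - j) = 0
    rw [e']
    fin_cases i
    · exact h0
    · exact h1)
  have h2 := congrFun h 1
  simp at h2

theorem no_inf (hdeg : HasDeg c) (a : Fin s) : ¬ ((pl c a 0).coeff (d a) = 0 ∧ (pl c a 1).coeff (d a) = 0) := by
  rintro ⟨h0, h1⟩
  have hc : ∀ i : Fin 2, (pl c a i).coeff (d a) = 0 := by
    intro i
    fin_cases i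
    · exact h0
    · exact h1
  have h := hdeg a (fun i => if i = 0 then 1 else 0) (by
    funext i
    show ∑ j : Fin (d a + 1), c ⟨a, (i, j)⟩ * (if (0 : Fin 2) = 0 then 1 else 0) ^ (j : ℕ) *
        (if (1 : Fin 2) = 0 then 1 else 0) ^ (d a - j) = 0
    rw [if_pos rfl, if_neg (by decide)]
    refine Finset.sum_eq_zero fun j _ => ?_
    by_cases hj : (j : ℕ) = d a
    · have h2 := hc i
      rw [coeff_pl, dif_pos (Nat.lt_succ_self _)] at h2
      have h3 : j = ⟨d a, Nat.lt_succ_self _⟩ := Fin.ext hj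
      rw [h3, h2, zero_mul, zero_mul]
    · have h2 := j.2
      rw [zero_pow (by omega), mul_zero])
  have h2 := congrFun h 0
  simp at h2

theorem pl_ne (a : Fin s) (hd : 1 ≤ d a) (i i' : Fin 2) (hi : ∀ z, ¬ (eval z (pl c a i) = 0 ∧ eval z (pl c a i') = 0))
    (hi' : ¬ ((pl c a i).coeff (d a) = 0 ∧ (pl c a i').coeff (d a) = 0)) : pl c a i ≠ 0 := by
  intro h0
  by_cases h1 : (pl c a i').degree = 0
  · apply hi'
    rw [h0]
    refine ⟨coeff_zero _, coeff_eq_zero_of_natDegree_lt ?_⟩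
    have h2 : (pl c a i').natDegree = 0 := natDegree_eq_of_degree_eq_some h1
    omega
  · obtain ⟨z, hz⟩ := IsAlgClosed.exists_root (pl c a i') h1
    exact hi z ⟨by rw [h0, eval_zero], hz⟩

theorem pl0_ne (hdeg : HasDeg c) (a : Fin s) (hd : 1 ≤ d a) : pl c a 0 ≠ 0 :=
  pl_ne a hd 0 1 (no_common hdeg a) (no_inf hdeg a)

theorem pl1_ne (hdeg : HasDeg c) (a : Fin s) (hd : 1 ≤ d a) : pl c a 1 ≠ 0 :=
  pl_ne a hd 1 0 (fun z h => no_common hdeg a z ⟨h.2, h.1⟩) (fun h => no_inf hdeg a ⟨h.2, h.1⟩)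

private theorem const_of_dvd {P : ℂ[X]} (h : P ∣ derivative P) : P.natDegree = 0 := by
  by_contra hn
  have h1 : derivative P ≠ 0 := by
    intro h0
    exact hn (derivative_eq_zero.mp h0)
  have h2 := natDegree_le_of_dvd h h1
  have h3 := natDegree_derivative_lt (p := P) hn
  omega

theorem wr_ne (hdeg : HasDeg c) (a : Fin s) (hd : 1 ≤ d a) : wr c a ≠ 0 := by
  intro h0
  have hcop : IsCoprime (pl c a 0) (pl c a 1) := by
    rw [isCoprime_iff_aeval_ne_zero_of_isAlgClosed ℂ ℂ]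
    intro z
    by_contra h
    push Not at h
    apply no_common hdeg a z
    simpa using h
  rw [wr, sub_eq_zero] at h0
  have h1 : pl c a 0 ∣ derivative (pl c a 0) :=
    hcop.dvd_of_dvd_mul_right (by rw [h0]; exact dvd_mul_right _ _)
  have h2 : pl c a 1 ∣ derivative (pl c a 1) :=
    hcop.symm.dvd_of_dvd_mul_left (by rw [← h0]; exact dvd_mul_left _ _)
  have h3 := const_of_dvd h1
  have h4 := const_of_dvd h2
  exact no_inf hdeg a ⟨coeff_eq_zero_of_natDegree_lt (by omega), coeff_eq_zero_of_natDegree_lt (by omega)⟩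

end

end

end Pool.Agent.Helper11.OB
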